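import Pool.Agent.RS.StmtsF

/-!
# Squad RS, row LMT: `lam` of one term
-/

set_option autoImplicit false

namespace Pool.Agent.RS.H7

open MvPolynomial Pool.Agent.RS

theorem lmt (tra : TraStmt) : LmtStmt := by
  intro D B c hB
  obtain ⟨D', h⟩ := tra D B c hB
  refine ⟨D', fun E _ j q a b hq ha hb hj hp hqb => ?_⟩
  obtain ⟨a', b', h1, h2, h3, h4, h5⟩ := h E j q a b hq ha hb hj
  have hb' := h4 hp hqb
  refine ⟨a', b', h1, h2, hb', h3, ?_, h5⟩
  have h6 : io E b' ≠ 0 := fun h0 => hb' (io_injective (h0.trans (map_zero _).symm))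
  obtain ⟨-, -, -, h7⟩ := h5 (FF E) (io E) h6
  have h8 : up j (io E a / (io E q ^ B * io E b)) =
      algebraMap (Polynomial (FF E)) (RatFunc (FF E)) (atX j (io E) a) /
        (algebraMap (Polynomial (FF E)) (RatFunc (FF E)) (atX j (io E) q) ^ B *
          algebraMap (Polynomial (FF E)) (RatFunc (FF E)) (atX j (io E) b)) := by
    rw [map_div₀ (up (E := E) j), map_mul (up (E := E) j), map_pow (up (E := E) j), up_io, up_io,
      up_io]
  rw [lam_apply, h8]
  exact h7

end Pool.Agent.RS.H7
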